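import Pool.Agent.H40.JsPad

set_option autoImplicit false

namespace Pool.Agent.Results.MP_d8a1a0_gt.NotLoeb

open Set Filter Metric
open Pool.Agent.H40.Bspt Pool.Agent.H40.Jz Pool.Agent.H40.Js Pool.Agent.H40.Js.Pad

variable {M : Type} (E : M → M → Prop)

/-- `T` has a base that is the union of a sequence of finite sets -/
def CufBase (T : M) : Prop :=
  ∃ B : Om E → M, Intl E B ∧ (∀ n, IsFin E (B n) ∧ Sub E (B n) T) ∧
    ∀ U x, E U T → E x U → ∃ n V, E V (B n) ∧ E x V ∧ Sub E V U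

/-- the nonempty closed sets have a multiple choice function -/
def WeaklyLoeb (X T : M) : Prop :=
  ∃ f : {C // Closed E X T C ∧ ∃ x, E x C} → M, Intl E f ∧
    ∀ C, Sub E (f C) C.1 ∧ IsFin E (f C) ∧ ∃ x, E x (f C)

theorem bl_smul (g : G) (x : Z) (r : ℝ) : g • bl x r = bl (g • x) r :=
  Subtype.ext (Set.ext fun y => by
    show dist (g⁻¹ • y) x < r ↔ dist y (g • x) < r
    rw [← dist_smul g, smul_inv_smul])

def lev (n : ℕ) : PS G (PS G Z) := ⟨range fun x => bl x (1 / (n + 1)), sym_all fun g _ ⟨x, e⟩ =>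
  ⟨g • x, by rw [← e, bl_smul]⟩⟩

theorem lev_fin (n : ℕ) : (lev n).1.Finite := by
  obtain ⟨F, -, h1, h2⟩ := finite_cover_balls_of_compact (isCompact_univ (X := Z))
    (Nat.one_div_pos_of_nat (n := n))
  refine (h1.image fun x => bl x (1 / (n + 1))).subset ?_
  rintro _ ⟨x, rfl⟩
  obtain ⟨y, h3, h4⟩ := mem_iUnion₂.1 (h2 (mem_univ x))
  exact ⟨y, h3, Subtype.ext (IsUltrametricDist.ball_eq_of_mem h4)⟩

theorem result : ∃ (M : Type) (E : M → M → Prop), IsZF E ∧ ∃ X T : M,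
    IsTop E X T ∧ Compact E X T ∧ T2 E X T ∧ CufBase E T ∧ ¬ WeaklyLoeb E X T := by
  obtain ⟨J⟩ := ex_js fx
  refine ⟨J.M, J.E, J.zf, J.sA unA, J.T, J.isTop, J.compact isCompact_univ, J.t2 sb _,
    ⟨fun n => J.fA (lev (J.omE.symm n)), ?_, fun n => ⟨J.finS.2 (lev_fin _), J.subS_iff.2 ?_⟩,
      fun U x hU hx => ?_⟩, ?_⟩
  · refine J.intl_of (s := .n) (t := .w (.w .a)) univ lev (Eventually.of_forall fun g n _ =>
      ⟨trivial, Subtype.ext (Set.ext fun s => ?_)⟩) fun z => ⟨_, trivial, J.omE_symm z, rfl⟩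
    constructor
    · rintro ⟨x, rfl⟩
      exact ⟨_, (bl_smul g⁻¹ x _).symm⟩
    · rintro ⟨x, e⟩
      exact ⟨g • x, ((bl_smul g x _).symm.trans (congrArg (g • ·) e)).trans (smul_inv_smul g _)⟩
  · rintro _ ⟨x, rfl⟩
    exact isOpen_ball (α := Z)
  · obtain ⟨u, hu, rfl⟩ := J.elT hU
    obtain ⟨x, hx', rfl⟩ := J.elA hx
    obtain ⟨r, h1, h2⟩ := Metric.isOpen_iff.1 hu x hx'
    obtain ⟨n, hn⟩ := exists_nat_one_div_lt h1
    refine ⟨J.omE n, J.sA (bl x (1 / (n + 1))), J.memS.2 ?_,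
      J.memA.2 (mem_ball_self Nat.one_div_pos_of_nat),
      J.subA_iff.2 ((ball_subset_ball hn.le).trans h2)⟩
    rw [Equiv.symm_apply_apply]
    exact ⟨x, rfl⟩
  · rintro ⟨f, h1, h2⟩
    obtain ⟨F, h3, -, h4⟩ := supp_iff.1 (J.intl_sym (s := .w .a) (t := .w .a) h1)
    obtain ⟨y, -, h6⟩ := (ball_inf 0 one_pos).exists_notMem_finite h3
    obtain ⟨r, h7, h8⟩ := avoid h3 h6
    let C : {C // Closed J.E (J.sA unA) J.T C ∧ ∃ x, J.E x C} := ⟨J.sA (bl y r),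
      J.closed_of sb (subset_univ _) (IsUltrametricDist.isClosed_ball y r),
      _, J.memA.2 (mem_ball_self h7)⟩
    obtain ⟨h9, h10, w, h11⟩ := h2 C
    obtain ⟨u, h12, e⟩ := J.subA h9
    rw [e] at h10 h11
    obtain ⟨w, hw, rfl⟩ := J.elA h11
    refine ball_inf y h7 ((J.finA.1 h10).subset fun z hz => ?_)
    obtain ⟨g, rfl, a, b⟩ := homog (h12 hw) hz
    have e1 : bl y r = g • bl y r := Subtype.ext (Set.ext fun x => by
      exact ((b (g⁻¹ • x)).symm.trans (by rw [smul_inv_smul]; rfl)).symm)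
    have e2 := J.sA_inj (e.symm.trans (h4 g (fun x hx => a x (h8 x hx)) C C (bl y r) u rfl
      (congrArg J.sA e1) e))
    rw [e2]
    exact smul_mem.2 hw

end Pool.Agent.Results.MP_d8a1a0_gt.NotLoeb
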